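import Pool.Agent.Run7.h862.AD.Two

/-!
# Piece VID of project AD: the formula for the invariant derivation
-/

set_option autoImplicit false

namespace Run7.h862.AD

open Run7.h131.AD

/-- all coefficients are in `A` -/
def InA (A : Subring PS) (E : PowerSeries PS) : Prop := ∀ k, PowerSeries.coeff k E ∈ A

/-- `d` applied to the coefficients -/
noncomputable def dh (d : PS → ℚ) (E : PowerSeries PS) : PS := PowerSeries.mk fun k => d (PowerSeries.coeff k E)

/-- the inner variable is put `0` -/
noncomputable def eh (E : PowerSeries PS) : PS := PowerSeries.map (PowerSeries.constantCoeff : PS →+* ℚ) E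

theorem coeff_dh (d : PS → ℚ) (E : PowerSeries PS) (k : ℕ) :
    PowerSeries.coeff k (dh d E) = d (PowerSeries.coeff k E) := by simp [dh]

theorem coeff_eh (E : PowerSeries PS) (k : ℕ) :
    PowerSeries.coeff k (eh E) = ev (PowerSeries.coeff k E) := by simp [eh, ev]

section
variable {A : Subring PS} {d : PS → ℚ}

theorem InA.add {E F : PowerSeries PS} (hE : InA A E) (hF : InA A F) : InA A (E + F) := by
  intro k; rw [map_add]; exact A.add_mem (hE k) (hF k)

theorem InA.mul {E F : PowerSeries PS} (hE : InA A E) (hF : InA A F) : InA A (E * F) := by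
  intro k; rw [PowerSeries.coeff_mul]
  exact A.sum_mem fun x _ => A.mul_mem (hE _) (hF _)

theorem d_zero (hd : PtDer (A : Set PS) d) : d 0 = 0 := by
  have := hd.const 0
  simpa using this

theorem d_sum (hd : PtDer (A : Set PS) d) {ι : Type*} (s : Finset ι) (f : ι → PS) (hf : ∀ i ∈ s, f i ∈ A) :
    d (∑ i ∈ s, f i) = ∑ i ∈ s, d (f i) := by
  classical
  induction s using Finset.induction_on with
  | empty => simpa using d_zero hd
  | insert a s ha ih =>
    rw [Finset.sum_insert ha, Finset.sum_insert ha, hd.add, ih]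
    · intro i hi; exact hf i (Finset.mem_insert_of_mem hi)
    · exact hf a (Finset.mem_insert_self _ _)
    · exact A.sum_mem fun i hi => hf i (Finset.mem_insert_of_mem hi)

theorem d_C_mul (hd : PtDer (A : Set PS) d) (hC : ∀ x : ℚ, PowerSeries.C x ∈ A) (x : ℚ) {g : PS} (hg : g ∈ A) :
    d (PowerSeries.C x * g) = x * d g := by
  rw [hd.mul _ (hC x) _ hg, hd.const]
  simp [ev]

theorem dh_add (hd : PtDer (A : Set PS) d) {E F : PowerSeries PS} (hE : InA A E) (hF : InA A F) :
    dh d (E + F) = dh d E + dh d F := by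
  ext k
  rw [map_add, coeff_dh, coeff_dh, coeff_dh, map_add]
  exact hd.add _ (hE k) _ (hF k)

theorem dh_mul (hd : PtDer (A : Set PS) d) {E F : PowerSeries PS} (hE : InA A E) (hF : InA A F) :
    dh d (E * F) = eh E * dh d F + eh F * dh d E := by
  ext k
  rw [map_add, coeff_dh, PowerSeries.coeff_mul, d_sum hd _ _ (fun x _ => A.mul_mem (hE _) (hF _)),
    mul_comm (eh F), PowerSeries.coeff_mul, PowerSeries.coeff_mul, ← Finset.sum_add_distrib]
  refine Finset.sum_congr rfl fun x _ => ?_
  rw [hd.mul _ (hE _) _ (hF _), coeff_eh, coeff_dh, coeff_dh, coeff_eh]; ring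

theorem eh_add (E F : PowerSeries PS) : eh (E + F) = eh E + eh F := by simp [eh]
theorem eh_mul (E F : PowerSeries PS) : eh (E * F) = eh E * eh F := by simp [eh]

theorem inA_inX (hC : ∀ x : ℚ, PowerSeries.C x ∈ A) (g : PS) : InA A (inX g) := by
  intro k; simp only [inX, PowerSeries.coeff_mk]; exact hC _

theorem inA_inY {g : PS} (hg : g ∈ A) : InA A (inY g) := by
  intro k; simp only [inY, PowerSeries.coeff_C]
  split_ifs
  · exact hg
  · exact A.zero_mem

theorem eh_inX (g : PS) : eh (inX g) = g := by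
  ext k; rw [coeff_eh]; simp [inX, ev]

theorem eh_inY (g : PS) : eh (inY g) = PowerSeries.C (ev g) := by
  simp [eh, inY, ev]

theorem dh_inX (hd : PtDer (A : Set PS) d) (g : PS) : dh d (inX g) = 0 := by
  ext k; rw [coeff_dh]; simp [inX, hd.const]

theorem dh_inY (hd : PtDer (A : Set PS) d) (g : PS) : dh d (inY g) = PowerSeries.C (d g) := by
  ext k; rw [coeff_dh]; simp only [inY, PowerSeries.coeff_C]
  split_ifs
  · rfl
  · exact d_zero hd

theorem ev_iter (k : ℕ) : ∀ g : PS, ev (D^[k] g) = (k.factorial : ℚ) * PowerSeries.coeff k g := by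
  induction k with
  | zero => intro g; simp [ev]
  | succ k ih =>
    intro g
    rw [Function.iterate_succ_apply, ih, coeff_D, Nat.factorial_succ]
    push_cast; ring

theorem eh_tay (g : PS) : eh (tay g) = g := by
  ext k
  rw [coeff_eh]
  simp only [tay, PowerSeries.coeff_mk]
  have : ev (PowerSeries.C ((k.factorial : ℚ)⁻¹) * D^[k] g) = (k.factorial : ℚ)⁻¹ * ev (D^[k] g) := by simp [ev]
  rw [this, ev_iter]
  have : (k.factorial : ℚ) ≠ 0 := by exact_mod_cast k.factorial_ne_zero
  field_simp

theorem inA_tay (hC : ∀ x : ℚ, PowerSeries.C x ∈ A) {g : PS} (hg : ∀ k, D^[k] g ∈ A) : InA A (tay g) := by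
  intro k; simp only [tay, PowerSeries.coeff_mk]; exact A.mul_mem (hC _) (hg k)

theorem dh_tay (hd : PtDer (A : Set PS) d) (hC : ∀ x : ℚ, PowerSeries.C x ∈ A) {g : PS}
    (hg : ∀ k, D^[k] g ∈ A) : dh d (tay g) = del d g := by
  ext k
  rw [coeff_dh]
  simp only [tay, del, PowerSeries.coeff_mk]
  rw [d_C_mul hd hC _ (hg k)]; ring

theorem poly {s : ℕ} (w : Fin s → PS) (hd : PtDer (A : Set PS) d) (hC : ∀ x : ℚ, PowerSeries.C x ∈ A)
    (hw : ∀ i, w i ∈ A) (H : MvPolynomial (Fin s ⊕ Fin s) ℚ) :
    InA A (MvPolynomial.aeval (pt2 w) H) ∧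
    eh (MvPolynomial.aeval (pt2 w) H) = MvPolynomial.aeval (pt1 w) H ∧
    dh d (MvPolynomial.aeval (pt2 w) H) =
      ∑ j, PowerSeries.C (d (w j)) * MvPolynomial.aeval (pt1 w) (MvPolynomial.pderiv (Sum.inr j) H) := by
  induction H using MvPolynomial.induction_on with
  | C a =>
    rw [MvPolynomial.aeval_C, algMap, MvPolynomial.aeval_C]
    have e : PowerSeries.C (PowerSeries.C a) = inY (PowerSeries.C a) := rfl
    refine ⟨?_, ?_, ?_⟩
    · rw [e]; exact inA_inY (hC a)
    · rw [e, eh_inY]; simp [ev, PowerSeries.algebraMap_apply]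
    · rw [e, dh_inY hd, hd.const]; simp
  | add P Q hP hQ =>
    obtain ⟨p1, p2, p3⟩ := hP
    obtain ⟨q1, q2, q3⟩ := hQ
    simp only [map_add]
    refine ⟨p1.add q1, ?_, ?_⟩
    · rw [eh_add, p2, q2]
    · rw [dh_add hd p1 q1, p3, q3, ← Finset.sum_add_distrib]
      exact Finset.sum_congr rfl fun j _ => by ring
  | mul_X P i hP =>
    obtain ⟨p1, p2, p3⟩ := hP
    rw [map_mul, MvPolynomial.aeval_X, map_mul, MvPolynomial.aeval_X]
    rcases i with i | i
    · have e2 : pt2 w (Sum.inl i) = inX (w i) := rfl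
      have e1 : pt1 w (Sum.inl i) = w i := rfl
      rw [e2, e1]
      refine ⟨p1.mul (inA_inX hC _), ?_, ?_⟩
      · rw [eh_mul, p2, eh_inX]
      · rw [dh_mul hd p1 (inA_inX hC _), dh_inX hd, eh_inX, p3, mul_zero, zero_add, Finset.mul_sum]
        refine Finset.sum_congr rfl fun j _ => ?_
        rw [Derivation.leibniz, MvPolynomial.pderiv_X_of_ne (by simp), smul_zero, zero_add, smul_eq_mul, map_mul,
          MvPolynomial.aeval_X, e1]
        ring
    · have e2 : pt2 w (Sum.inr i) = inY (w i) := rfl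
      have e1 : pt1 w (Sum.inr i) = PowerSeries.C (c0 w i) := rfl
      rw [e2, e1]
      refine ⟨p1.mul (inA_inY (hw i)), ?_, ?_⟩
      · rw [eh_mul, p2, eh_inY]; rfl
      · rw [dh_mul hd p1 (inA_inY (hw i)), dh_inY hd, eh_inY, p3, p2]
        have key : ∀ j, PowerSeries.C (d (w j)) *
            MvPolynomial.aeval (pt1 w) (MvPolynomial.pderiv (Sum.inr j) (P * MvPolynomial.X (Sum.inr i))) =
            (if j = i then MvPolynomial.aeval (pt1 w) P * PowerSeries.C (d (w j)) else 0) +
              PowerSeries.C (ev (w i)) * (PowerSeries.C (d (w j)) *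
                MvPolynomial.aeval (pt1 w) (MvPolynomial.pderiv (Sum.inr j) P)) := by
          intro j
          rw [Derivation.leibniz, smul_eq_mul, smul_eq_mul, map_add, map_mul, map_mul, MvPolynomial.aeval_X, e1]
          by_cases hij : j = i
          · subst hij
            rw [MvPolynomial.pderiv_X_self, if_pos rfl, map_one]
            change _ * (_ * 1 + PowerSeries.C (ev (w j)) * _) = _
            ring
          · rw [MvPolynomial.pderiv_X_of_ne (by simpa using fun h => hij h.symm), if_neg hij, map_zero]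
            change _ * (_ * 0 + PowerSeries.C (ev (w i)) * _) = _
            ring
        rw [Finset.sum_congr rfl fun j _ => key j, Finset.sum_add_distrib, ← Finset.mul_sum]
        simp

end

theorem cc_pt1 {s : ℕ} (w : Fin s → PS) (H : MvPolynomial (Fin s ⊕ Fin s) ℚ) :
    PowerSeries.constantCoeff (MvPolynomial.aeval (pt1 w) H) = MvPolynomial.eval (pt0 w) H := by
  induction H using MvPolynomial.induction_on with
  | C a => rw [MvPolynomial.aeval_C]; simp [PowerSeries.algebraMap_apply]
  | add P Q hP hQ => simp [hP, hQ]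
  | mul_X P i hP =>
    rw [map_mul, map_mul, hP, map_mul, MvPolynomial.aeval_X, MvPolynomial.eval_X]
    congr 1
    rcases i with i | i <;> simp [pt1, pt0, c0, ev]

theorem t_VID : S_VID := by
  intro s w N M hNM A hC hw d hd i
  have hw0 : ∀ i, w i ∈ A := fun i => hw i 0
  obtain ⟨m1, m2, m3⟩ := poly w hd hC hw0 (M i)
  obtain ⟨n1, n2, n3⟩ := poly w hd hC hw0 (N i)
  have h := congrArg (dh d) (hNM.add i)
  rw [dh_mul hd m1 (inA_tay hC (hw i)), m2, m3, n3, eh_tay, dh_tay hd hC (hw i)] at h
  have hcc : PowerSeries.constantCoeff (MvPolynomial.aeval (pt1 w) (M i)) ≠ 0 := by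
    rw [cc_pt1]; exact hNM.unit i
  have hinv := PowerSeries.mul_inv_cancel _ hcc
  set M1 : PS := MvPolynomial.aeval (pt1 w) (M i) with hM1
  have h2 : del d (w i) = ((∑ j, PowerSeries.C (d (w j)) *
      MvPolynomial.aeval (pt1 w) (MvPolynomial.pderiv (Sum.inr j) (N i))) - w i * ∑ j, PowerSeries.C (d (w j)) *
      MvPolynomial.aeval (pt1 w) (MvPolynomial.pderiv (Sum.inr j) (M i))) * M1⁻¹ := by
    rw [← h]
    linear_combination (-(del d (w i))) * hinv
  rw [h2, Finset.mul_sum, ← Finset.sum_sub_distrib, Finset.sum_mul]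
  refine Finset.sum_congr rfl fun j _ => ?_
  unfold vv
  ring

end Run7.h862.AD
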