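import Pool.Agent.Run7.h862.AD.Two

/-!
# Piece ELL of project AD: the addition theorem of the elliptic functions `w'' = a w + 2 b w³` (Euler)
-/

set_option autoImplicit false

namespace Run7.h862.AD

open Run7.h131.AD

/-- a power of a sum with a constant: no content, only to keep `simp` small -/
theorem D_C_mul (x : ℚ) (f : PS) : D (PowerSeries.C x * f) = PowerSeries.C x * D f := by
  rw [D_mul, D_C, mul_zero, add_zero]

theorem dx_C_mul (x : PS) (F : PowerSeries PS) : dx (PowerSeries.C x * F) = PowerSeries.C x * dx F := by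
  rw [dx_mul]; simp [dx]

theorem dy_CC_mul (x : ℚ) (F : PowerSeries PS) :
    dy (PowerSeries.C (PowerSeries.C x) * F) = PowerSeries.C (PowerSeries.C x) * dy F := by
  rw [dy_mul]
  have : dy (PowerSeries.C (PowerSeries.C x)) = 0 := by
    have := dy_inY (PowerSeries.C x)
    rw [D_C] at this
    simpa [inY] using this
  rw [this, mul_zero, add_zero]

theorem dx_one_sub (F : PowerSeries PS) : dx (1 - F) = - dx F := by simp [dx]
theorem dy_one_sub (F : PowerSeries PS) : dy (1 - F) = - dy F := by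
  ext1 k
  simp only [coeff_dy, map_sub, map_neg, D_sub, PowerSeries.coeff_one]
  split_ifs <;> simp [D_one, D_zero]

theorem t_ELL : S_ELL := by
  intro a b w hw0 hw1 hw
  -- the first integral
  have hu : D w ^ 2 = 1 + PowerSeries.C a * w ^ 2 + PowerSeries.C b * w ^ 4 := by
    have hz : D w ^ 2 - (1 + PowerSeries.C a * w ^ 2 + PowerSeries.C b * w ^ 4) = 0 := by
      apply D_eq_zero
      · rw [D_sub, D_add, D_add, D_C_mul, D_C_mul, D_pow, D_pow, D_pow, D_one, hw, map_mul]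
        have : (PowerSeries.C (2 : ℚ) : PS) = 2 := map_ofNat _ 2
        rw [this]
        push_cast
        ring
      · have e : ∀ g h : PS, ev (g * h) = ev g * ev h := by intro g h; simp [ev]
        have e2 : ev (D w ^ 2 - (1 + PowerSeries.C a * w ^ 2 + PowerSeries.C b * w ^ 4))
            = ev (D w) ^ 2 - (1 + a * ev w ^ 2 + b * ev w ^ 4) := by simp [ev]
        rw [e2, hw0, hw1]; norm_num
    exact sub_eq_zero.mp hz
  set u : PS := D w with hudef
  -- names
  set w1 : PowerSeries PS := inX w with hw1d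
  set u1 : PowerSeries PS := inX u with hu1d
  set w2 : PowerSeries PS := inY w with hw2d
  set u2 : PowerSeries PS := inY u with hu2d
  set A : PowerSeries PS := PowerSeries.C (PowerSeries.C a) with hA
  set B : PowerSeries PS := PowerSeries.C (PowerSeries.C b) with hB
  have inXC : ∀ x : ℚ, inX (PowerSeries.C x) = PowerSeries.C (PowerSeries.C x) := by
    intro x; rw [inX_eq]; simp
  have hinX : ∀ g h : PS, inX (g * h) = inX g * inX h := by intro g h; simp [inX_eq]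
  have hC2 : (PowerSeries.C (2 : ℚ) : PS) = 2 := map_ofNat _ 2
  have m2 : PowerSeries.map (PowerSeries.C : ℚ →+* PS) 2 = 2 := map_ofNat _ 2
  have c2 : (PowerSeries.C (2 : PS) : PowerSeries PS) = 2 := map_ofNat _ 2
  have e1 : u1 ^ 2 = 1 + A * w1 ^ 2 + B * w1 ^ 4 := by
    have := congrArg inX hu
    simpa [inX_eq, hu1d, hw1d, hA, hB] using this
  have e2 : u2 ^ 2 = 1 + A * w2 ^ 2 + B * w2 ^ 4 := by
    have := congrArg inY hu
    simpa [inY, hu2d, hw2d, hA, hB] using this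
  have dxw1 : dx w1 = u1 := dx_inX w
  have dyw2 : dy w2 = u2 := dy_inY w
  have dxw2 : dx w2 = 0 := dx_inY w
  have dyw1 : dy w1 = 0 := dy_inX w
  have dxu2 : dx u2 = 0 := dx_inY u
  have dyu1 : dy u1 = 0 := dy_inX u
  have dxu1 : dx u1 = A * w1 + 2 * B * w1 ^ 3 := by
    rw [hu1d, dx_inX, hw, map_mul, hC2]
    simp [inX_eq, hw1d, hA, hB, m2]
  have dyu2 : dy u2 = A * w2 + 2 * B * w2 ^ 3 := by
    rw [hu2d, dy_inY, hw, map_mul, hC2]
    simp [inY, hw2d, hA, hB, c2]
  set δ : PowerSeries PS := 1 - B * (w1 * w1 * (w2 * w2)) with hδ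
  have hccw1 : PowerSeries.constantCoeff w1 = 0 := by
    have := coeff_zero_inX w
    rw [hw0] at this
    simpa using this
  have hccu1 : PowerSeries.constantCoeff u1 = 1 := by
    have := coeff_zero_inX u
    rw [hw1] at this
    simpa using this
  have hδ1 : PowerSeries.constantCoeff δ = ((1 : PSˣ) : PS) := by
    rw [hδ]; simp [hccw1]
  obtain ⟨δi, hδi⟩ : ∃ δi, δ * δi = 1 := ⟨_, PowerSeries.mul_invOfUnit δ 1 hδ1⟩
  set n : PowerSeries PS := w1 * u2 + w2 * u1 with hn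
  set F : PowerSeries PS := n * δi with hF
  have hδF : δ * F = n := by rw [hF]; linear_combination n * hδi
  have dxδ : dx δ = -(2 * B * w1 * u1 * w2 ^ 2) := by
    rw [hδ, dx_one_sub, hB, dx_C_mul, dx_mul, dx_mul, dx_mul, dxw1, dxw2]; ring
  have dyδ : dy δ = -(2 * B * w2 * u2 * w1 ^ 2) := by
    rw [hδ, dy_one_sub, hB, dy_CC_mul, dy_mul, dy_mul, dy_mul, dyw1, dyw2]; ring
  have dxn : dx n = u1 * u2 + w2 * (A * w1 + 2 * B * w1 ^ 3) := by
    rw [hn, dx_add, dx_mul, dx_mul, dxw1, dxw2, dxu1, dxu2]; ring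
  have dyn : dy n = u1 * u2 + w1 * (A * w2 + 2 * B * w2 ^ 3) := by
    rw [hn, dy_add, dy_mul, dy_mul, dyw1, dyw2, dyu1, dyu2]; ring
  have hx : δ * dx F + F * dx δ = dx n := by rw [← dx_mul, hδF]
  have hy : δ * dy F + F * dy δ = dy n := by rw [← dy_mul, hδF]
  set G : PowerSeries PS := δ * (u1 * u2 + w1 * (A * w2 + 2 * B * w2 ^ 3)) + 2 * B * w2 * u2 * w1 ^ 2 * n with hG
  have hx2 : δ ^ 2 * dx F = G := by
    have h3 : δ ^ 2 * dx F = δ * dx n - n * dx δ := by
      rw [← hx]; linear_combination (-(dx δ)) * hδF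
    rw [h3, dxn, dxδ, hG, hn, hδ]
    linear_combination (2 * B * w1 * w2 * w2 ^ 2) * e1 - (2 * B * w1 * w2 * w1 ^ 2) * e2
  have hy2 : δ ^ 2 * dy F = G := by
    have h3 : δ ^ 2 * dy F = δ * dy n - n * dy δ := by
      rw [← hy]; linear_combination (-(dy δ)) * hδF
    rw [h3, dyn, dyδ, hG]; ring
  have hxy : dx F = dy F := by
    have h3 : δ ^ 2 * dx F = δ ^ 2 * dy F := by rw [hx2, hy2]
    linear_combination δi ^ 2 * h3 + (-(dx F) * (1 + δ * δi) + dy F * (1 + δ * δi)) * hδi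
  have hF0 : PowerSeries.coeff 0 F = w := by
    have h3 := congrArg PowerSeries.constantCoeff hδF
    rw [map_mul, hδ1] at h3
    have h4 : PowerSeries.constantCoeff n = w := by
      rw [hn, map_add, map_mul, map_mul, hccw1, hccu1, hw2d, hu2d]
      simp [inY]
    rw [h4] at h3
    simpa using h3
  have hFt : F = tay w := by
    have := eq_tay F hxy
    rwa [hF0] at this
  have htu : tay u = dy F := by rw [hudef, tay_D, ← hFt]
  -- the polynomials
  let X0 : MvPolynomial (Fin 2 ⊕ Fin 2) ℚ := MvPolynomial.X (Sum.inl 0)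
  let X1 : MvPolynomial (Fin 2 ⊕ Fin 2) ℚ := MvPolynomial.X (Sum.inl 1)
  let Y0 : MvPolynomial (Fin 2 ⊕ Fin 2) ℚ := MvPolynomial.X (Sum.inr 0)
  let Y1 : MvPolynomial (Fin 2 ⊕ Fin 2) ℚ := MvPolynomial.X (Sum.inr 1)
  let Md : MvPolynomial (Fin 2 ⊕ Fin 2) ℚ := 1 - MvPolynomial.C b * (X0 * X0 * (Y0 * Y0))
  let Nn : MvPolynomial (Fin 2 ⊕ Fin 2) ℚ := X0 * Y1 + Y0 * X1
  let NG : MvPolynomial (Fin 2 ⊕ Fin 2) ℚ :=
    Md * (X1 * Y1 + X0 * (MvPolynomial.C a * Y0 + 2 * MvPolynomial.C b * Y0 ^ 3)) +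
      2 * MvPolynomial.C b * Y0 * Y1 * X0 ^ 2 * Nn
  have vX0 : MvPolynomial.aeval (pt2 ![w, u]) X0 = w1 := by simp [X0, pt2, hw1d]
  have vX1 : MvPolynomial.aeval (pt2 ![w, u]) X1 = u1 := by simp [X1, pt2, hu1d]
  have vY0 : MvPolynomial.aeval (pt2 ![w, u]) Y0 = w2 := by simp [Y0, pt2, hw2d]
  have vY1 : MvPolynomial.aeval (pt2 ![w, u]) Y1 = u2 := by simp [Y1, pt2, hu2d]
  have vC : ∀ x : ℚ, MvPolynomial.aeval (pt2 ![w, u]) (MvPolynomial.C x : MvPolynomial (Fin 2 ⊕ Fin 2) ℚ)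
      = PowerSeries.C (PowerSeries.C x) := by
    intro x; rw [MvPolynomial.aeval_C, algMap]
  have v2 : MvPolynomial.aeval (pt2 ![w, u]) (2 : MvPolynomial (Fin 2 ⊕ Fin 2) ℚ) = 2 := map_ofNat _ 2
  have vMd : MvPolynomial.aeval (pt2 ![w, u]) Md = δ := by
    simp only [Md, map_sub, map_one, map_mul, vX0, vY0, vC, hδ, hB]
  have vNn : MvPolynomial.aeval (pt2 ![w, u]) Nn = n := by
    simp only [Nn, map_add, map_mul, vX0, vY0, vX1, vY1, hn]
  have vNG : MvPolynomial.aeval (pt2 ![w, u]) NG = G := by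
    simp only [NG, map_add, map_mul, map_pow, vMd, vNn, vX0, vY0, vX1, vY1, vC, v2, hG, hA, hB]
  have eMd : MvPolynomial.eval (pt0 ![w, u]) Md = 1 := by
    simp [Md, X0, Y0, pt0, c0, hw0]
  refine ⟨![Nn, NG], ![Md, Md ^ 2], ?_, ?_⟩
  · intro i
    fin_cases i
    · change MvPolynomial.eval (pt0 ![w, u]) Md ≠ 0
      rw [eMd]; exact one_ne_zero
    · change MvPolynomial.eval (pt0 ![w, u]) (Md ^ 2) ≠ 0
      rw [map_pow, eMd]; norm_num
  · intro i
    fin_cases i
    · change MvPolynomial.aeval (pt2 ![w, u]) Md * tay w = MvPolynomial.aeval (pt2 ![w, u]) Nn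
      rw [vMd, vNn, ← hFt, hδF]
    · change MvPolynomial.aeval (pt2 ![w, u]) (Md ^ 2) * tay u = MvPolynomial.aeval (pt2 ![w, u]) NG
      rw [map_pow, vMd, vNG, htu, hy2]

end Run7.h862.AD
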