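import Pool.Agent.Run7.h131.AD.Iface

/-!
# Series in two variables: the two derivations (for the pieces ELL and VID of project AD)
-/

set_option autoImplicit false

namespace Run7.h862.AD

open Run7.h131.AD

/-- the derivative in the inner variable -/
noncomputable def dy (F : PowerSeries PS) : PowerSeries PS := PowerSeries.mk fun k => D (PowerSeries.coeff k F)

/-- the derivative in the outer variable -/
noncomputable def dx (F : PowerSeries PS) : PowerSeries PS := PowerSeries.derivative PS F

theorem D_add (f g : PS) : D (f + g) = D f + D g := by simp [D]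
theorem D_mul (f g : PS) : D (f * g) = f * D g + g * D f := by simp [D]
theorem D_C (x : ℚ) : D (PowerSeries.C x) = 0 := by simp [D]
theorem D_zero : D 0 = 0 := by simp [D]
theorem D_one : D 1 = 0 := by simp [D]
theorem D_neg (f : PS) : D (-f) = - D f := by simp [D]
theorem D_sub (f g : PS) : D (f - g) = D f - D g := by simp [D]
theorem D_pow (f : PS) (n : ℕ) : D (f ^ n) = n * f ^ (n - 1) * D f := by
  simp [D, Derivation.leibniz_pow, mul_assoc]

theorem coeff_D (f : PS) (k : ℕ) : PowerSeries.coeff k (D f) = PowerSeries.coeff (k + 1) f * (k + 1) := by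
  simp [D, PowerSeries.coeff_derivative]

theorem D_sum {ι : Type*} (s : Finset ι) (f : ι → PS) : D (∑ i ∈ s, f i) = ∑ i ∈ s, D (f i) := by
  simp [D]

theorem coeff_dy (F : PowerSeries PS) (k : ℕ) : PowerSeries.coeff k (dy F) = D (PowerSeries.coeff k F) := by
  simp [dy]

theorem coeff_dx (F : PowerSeries PS) (k : ℕ) :
    PowerSeries.coeff k (dx F) = PowerSeries.coeff (k + 1) F * (k + 1) := by
  simp [dx, PowerSeries.coeff_derivative]

theorem dx_add (F G : PowerSeries PS) : dx (F + G) = dx F + dx G := by simp [dx]
theorem dx_mul (F G : PowerSeries PS) : dx (F * G) = F * dx G + G * dx F := by simp [dx]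
theorem dy_add (F G : PowerSeries PS) : dy (F + G) = dy F + dy G := by
  ext1 k; simp [coeff_dy, D_add]
theorem dy_mul (F G : PowerSeries PS) : dy (F * G) = F * dy G + G * dy F := by
  ext1 k
  rw [map_add, coeff_dy, PowerSeries.coeff_mul, D_sum, mul_comm G, PowerSeries.coeff_mul, PowerSeries.coeff_mul,
    ← Finset.sum_add_distrib]
  refine Finset.sum_congr rfl fun x _ => ?_
  rw [D_mul, coeff_dy, coeff_dy]; ring

theorem inX_eq (g : PS) : inX g = PowerSeries.map (PowerSeries.C : ℚ →+* PS) g := by
  ext1 k; simp [inX]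

theorem dx_inX (g : PS) : dx (inX g) = inX (D g) := by
  ext1 k
  rw [coeff_dx]
  simp only [inX, PowerSeries.coeff_mk, coeff_D]
  rw [map_mul]; simp

theorem dx_inY (g : PS) : dx (inY g) = 0 := by
  simp [dx, inY]

theorem dy_inX (g : PS) : dy (inX g) = 0 := by
  ext1 k; simp [coeff_dy, inX, D_C]

theorem dy_inY (g : PS) : dy (inY g) = inY (D g) := by
  ext1 k
  rw [coeff_dy]
  simp only [inY, PowerSeries.coeff_C]
  split_ifs <;> simp [D_zero]

theorem D_eq_zero (h : PS) (h1 : D h = 0) (h2 : ev h = 0) : h = 0 := by
  ext k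
  cases k with
  | zero => simpa [ev] using h2
  | succ k =>
    have := coeff_D h k
    rw [h1] at this
    have hk : ((k : ℚ) + 1) ≠ 0 := by positivity
    simp only [map_zero] at this ⊢
    rcases mul_eq_zero.mp this.symm with h | h
    · exact h
    · exact absurd h hk

/-- a series with equal derivatives is the Taylor series of its restriction -/
theorem eq_tay (F : PowerSeries PS) (h : dx F = dy F) : F = tay (PowerSeries.coeff 0 F) := by
  ext1 k
  simp only [tay, PowerSeries.coeff_mk]
  induction k with
  | zero => simp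
  | succ k ih =>
    have h1 : PowerSeries.coeff (k + 1) F * ((k : PS) + 1) = D (PowerSeries.coeff k F) := by
      rw [← coeff_dx, h, coeff_dy]
    rw [ih, D_mul, D_C, mul_zero, add_zero, ← Function.iterate_succ_apply' D] at h1
    have hk : ((k : ℚ) + 1) ≠ 0 := by positivity
    have h2 : ((k : PS) + 1) = PowerSeries.C ((k : ℚ) + 1) := by simp
    have h3 : PowerSeries.C ((k : ℚ) + 1) * PowerSeries.C (((k : ℚ) + 1)⁻¹) = (1 : PS) := by
      rw [← map_mul, mul_inv_cancel₀ hk, map_one]
    calc PowerSeries.coeff (k + 1) F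
        = (PowerSeries.coeff (k + 1) F * ((k : PS) + 1)) * PowerSeries.C (((k : ℚ) + 1)⁻¹) := by
          rw [h2, mul_assoc, h3, mul_one]
      _ = _ := by
          rw [h1, Nat.factorial_succ]
          push_cast
          rw [mul_inv, map_mul]; ring

theorem tay_D (g : PS) : tay (D g) = dy (tay g) := by
  ext1 k
  rw [coeff_dy]
  simp only [tay, PowerSeries.coeff_mk]
  rw [D_mul, D_C, mul_zero, add_zero, ← Function.iterate_succ_apply' D, ← Function.iterate_succ_apply D]

theorem coeff_zero_inX (g : PS) : PowerSeries.coeff 0 (inX g) = PowerSeries.C (ev g) := by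
  simp [inX, ev]

theorem algMap (x : ℚ) : algebraMap ℚ (PowerSeries PS) x = PowerSeries.C (PowerSeries.C x) := by
  simp [PowerSeries.algebraMap_apply]

end Run7.h862.AD
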